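import Mathlib

/-!
# The hexagon property (HEX) of helper306 for convex chains
-/

set_option autoImplicit false

namespace Pool.Agent.W113.Hex

open Complex

/-- cross product -/
def cx (u v : ℂ) : ℝ := u.re * v.im - u.im * v.re

theorem cx_arg (u v : ℂ) : cx u v = ‖u‖ * ‖v‖ * Real.sin (arg v - arg u) := by
  have h1 := Complex.norm_mul_cos_arg u
  have h2 := Complex.norm_mul_sin_arg u
  have h3 := Complex.norm_mul_cos_arg v
  have h4 := Complex.norm_mul_sin_arg v
  unfold cx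
  rw [Real.sin_sub, ← h1, ← h2, ← h3, ← h4]
  ring_nf

theorem sin_pos_of (u v : ℂ) (h : 0 < cx u v) : 0 < Real.sin (arg v - arg u) := by
  rw [cx_arg] at h
  by_contra hcon
  have : ‖u‖ * ‖v‖ * Real.sin (arg v - arg u) ≤ 0 :=
    mul_nonpos_of_nonneg_of_nonpos (by positivity) (not_lt.1 hcon)
  linarith

theorem norm_pos_of (u v : ℂ) (h : 0 < cx u v) : 0 < ‖u‖ ∧ 0 < ‖v‖ := by
  constructor
  · rw [norm_pos_iff]
    rintro rfl
    simp [cx] at h
  · rw [norm_pos_iff]
    rintro rfl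
    simp [cx] at h

/-- if `sin d > 0` and `-π < d < 2π` then `0 < d < π` -/
theorem rng {d : ℝ} (h : 0 < Real.sin d) (h1 : -Real.pi < d) (h2 : d < 2 * Real.pi) :
    0 < d ∧ d < Real.pi := by
  constructor
  · by_contra hcon
    have := Real.sin_nonpos_of_nonpos_of_neg_pi_le (not_lt.1 hcon) h1.le
    linarith
  · by_contra hcon
    have h3 : 0 ≤ Real.sin (d - Real.pi) :=
      Real.sin_nonneg_of_nonneg_of_le_pi (by linarith) (by linarith)
    rw [Real.sin_sub_pi] at h3
    linarith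

theorem argr (z : ℂ) : -Real.pi < arg z ∧ arg z ≤ Real.pi :=
  ⟨Complex.neg_pi_lt_arg z, Complex.arg_le_pi z⟩

/-- positively oriented triple -/
def pos (a b c : ℂ) : Prop := 0 < cx (b - a) (c - a)

theorem pos1 {a b c : ℂ} (h : pos a b c) : 0 < cx (b - a) (c - b) := by
  unfold pos cx at *
  simp only [Complex.sub_re, Complex.sub_im] at *
  nlinarith

theorem pos2 {a b c : ℂ} (h : pos a b c) : 0 < cx (c - a) (c - b) := by
  unfold pos cx at *
  simp only [Complex.sub_re, Complex.sub_im] at *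
  nlinarith

theorem cx1 (a b c : ℂ) : cx (b - a) (c - b) = cx (b - a) (c - a) := by
  unfold cx
  simp only [Complex.sub_re, Complex.sub_im]
  ring

theorem cx2 (a b c : ℂ) : cx (c - a) (c - b) = cx (b - a) (c - a) := by
  unfold cx
  simp only [Complex.sub_re, Complex.sub_im]
  ring

/-- the argument of `X - A` for `X` below the segment `AF` -/
theorem argA {A F X : ℂ} (hr : 0 < (F - A).re) (hi : (F - A).im = 0) (h : pos A X F) :
    -Real.pi < arg (X - A) ∧ arg (X - A) < 0 := by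
  refine ⟨Complex.neg_pi_lt_arg _, ?_⟩
  rw [Complex.arg_neg_iff]
  unfold pos cx at h
  rw [hi] at h
  nlinarith

theorem argF {A F X : ℂ} (hr : 0 < (F - A).re) (hi : (F - A).im = 0) (h : pos A X F) :
    0 < arg (F - X) ∧ arg (F - X) < Real.pi := by
  have h1 : 0 < (F - X).im := by
    unfold pos cx at h
    rw [hi] at h
    have h2 : (F - X).im = (F - A).im - (X - A).im := by
      simp only [Complex.sub_im]; ring
    rw [h2, hi]
    nlinarith
  constructor
  · have h3 : 0 ≤ arg (F - X) := Complex.arg_nonneg_iff.2 h1.le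
    rcases h3.eq_or_lt with h4 | h4
    · exfalso
      have := (Complex.arg_eq_zero_iff.1 h4.symm).2
      linarith
    · exact h4
  · refine lt_of_le_of_ne (Complex.arg_le_pi _) ?_
    intro h4
    have := (Complex.arg_eq_pi_iff.1 h4).2
    linarith

/-- chords with the same first point `X`: compare with `F` -/
theorem cmpF {A F X Y : ℂ} (hr : 0 < (F - A).re) (hi : (F - A).im = 0) (h : pos A X F)
    (h2 : pos X Y F) : arg (F - X) - Real.pi < arg (Y - X) ∧ arg (Y - X) < arg (F - X) := by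
  have h3 := argF hr hi h
  have h4 := sin_pos_of _ _ h2
  have h5 := argr (Y - X)
  have h6 := rng h4 (by linarith) (by linarith)
  constructor <;> linarith

/-- chords with the same last point `Z`: compare with `A` -/
theorem cmpA {A F X Z : ℂ} (hr : 0 < (F - A).re) (hi : (F - A).im = 0) (h : pos A Z F)
    (h2 : pos A X Z) : arg (Z - A) < arg (Z - X) ∧ arg (Z - X) < arg (Z - A) + Real.pi := by
  have h3 := argA hr hi h
  have h4 := sin_pos_of _ _ (pos2 h2)
  have h5 := argr (Z - X)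
  have h6 := rng h4 (by linarith) (by linarith)
  constructor <;> linarith

/-- an interior triangle -/
theorem tri {A F X Y Z : ℂ} (hr : 0 < (F - A).re) (hi : (F - A).im = 0) (hX : pos A X F)
    (hZ : pos A Z F) (h1 : pos X Y F) (h2 : pos X Z F) (h3 : pos A X Z) (h4 : pos A Y Z)
    (h : pos X Y Z) :
    arg (Y - X) < arg (Z - X) ∧ arg (Z - X) < arg (Z - Y) ∧
      arg (Z - Y) < arg (Y - X) + Real.pi := by
  have a1 := cmpF hr hi hX h1
  have a2 := cmpF hr hi hX h2
  have a3 := cmpA hr hi hZ h3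
  have a4 := cmpA hr hi hZ h4
  have s1 := sin_pos_of _ _ h
  have s2 := sin_pos_of _ _ (pos2 h)
  have s3 := sin_pos_of _ _ (pos1 h)
  have pp := Real.pi_pos
  have r1 := rng s1 (by linarith) (by linarith)
  have r2 := rng s2 (by linarith) (by linarith)
  have r3 := rng s3 (by linarith) (by linarith)
  refine ⟨by linarith, by linarith, by linarith⟩

theorem sin_cmp {u v : ℝ} (h0 : 0 < v) (h1 : v < u) (h2 : u < Real.pi) :
    Real.sin u ≤ Real.sin v ↔ Real.pi ≤ u + v := by
  have h3 : Real.sin u - Real.sin v = 2 * Real.sin ((u - v) / 2) * Real.cos ((u + v) / 2) :=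
    Real.sin_sub_sin u v
  have h4 : 0 < Real.sin ((u - v) / 2) :=
    Real.sin_pos_of_pos_of_lt_pi (by linarith) (by linarith)
  constructor
  · intro h
    by_contra hcon
    have h5 : 0 < Real.cos ((u + v) / 2) :=
      Real.cos_pos_of_mem_Ioo ⟨by linarith, by linarith⟩
    have : 0 < 2 * Real.sin ((u - v) / 2) * Real.cos ((u + v) / 2) := by positivity
    linarith
  · intro h
    have h5 : Real.cos ((u + v) / 2) ≤ 0 :=
      Real.cos_nonpos_of_pi_div_two_le_of_le (by linarith) (by linarith)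
    have : 2 * Real.sin ((u - v) / 2) * Real.cos ((u + v) / 2) ≤ 0 :=
      mul_nonpos_of_nonneg_of_nonpos (by positivity) h5
    linarith

/-- law of sines, part 1: `|XZ| ≤ |XY|` -/
theorem side1 {X Y Z : ℂ} (h : pos X Y Z) (t1 : arg (Y - X) < arg (Z - X))
    (t2 : arg (Z - X) < arg (Z - Y)) (t3 : arg (Z - Y) < arg (Y - X) + Real.pi) :
    ‖Z - X‖ ≤ ‖Y - X‖ ↔ Real.pi ≤ 2 * arg (Z - Y) - arg (Y - X) - arg (Z - X) := by
  have e1 : ‖Y - X‖ * ‖Z - Y‖ * Real.sin (arg (Z - Y) - arg (Y - X)) =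
      ‖Z - X‖ * ‖Z - Y‖ * Real.sin (arg (Z - Y) - arg (Z - X)) := by
    rw [← cx_arg, ← cx_arg, cx1, cx2]
  obtain ⟨n1, n2⟩ := norm_pos_of _ _ h
  obtain ⟨_, n3⟩ := norm_pos_of _ _ (pos1 h)
  have e2 : ‖Y - X‖ * Real.sin (arg (Z - Y) - arg (Y - X)) =
      ‖Z - X‖ * Real.sin (arg (Z - Y) - arg (Z - X)) := by
    have : ‖Z - Y‖ * (‖Y - X‖ * Real.sin (arg (Z - Y) - arg (Y - X))) =
        ‖Z - Y‖ * (‖Z - X‖ * Real.sin (arg (Z - Y) - arg (Z - X))) := by
      linarith
    exact mul_left_cancel₀ n3.ne' this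
  have sp1 : 0 < Real.sin (arg (Z - Y) - arg (Z - X)) :=
    Real.sin_pos_of_pos_of_lt_pi (by linarith) (by linarith)
  have sp2 : 0 < Real.sin (arg (Z - Y) - arg (Y - X)) :=
    Real.sin_pos_of_pos_of_lt_pi (by linarith) (by linarith)
  have key := sin_cmp (u := arg (Z - Y) - arg (Y - X)) (v := arg (Z - Y) - arg (Z - X))
    (by linarith) (by linarith) (by linarith)
  have : ‖Z - X‖ ≤ ‖Y - X‖ ↔ Real.sin (arg (Z - Y) - arg (Y - X)) ≤
      Real.sin (arg (Z - Y) - arg (Z - X)) := by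
    constructor
    · intro hle
      by_contra hcon
      have hcon := not_le.1 hcon
      nlinarith [mul_lt_mul_of_pos_left hcon n1, mul_le_mul_of_nonneg_right hle sp1.le]
    · intro hle
      by_contra hcon
      have hcon := not_le.1 hcon
      nlinarith [mul_lt_mul_of_pos_right hcon sp1, mul_le_mul_of_nonneg_left hle n1.le]
  rw [this, key]
  constructor <;> intro hh <;> linarith

/-- law of sines, part 2: `|XZ| ≤ |YZ|` -/
theorem side2 {X Y Z : ℂ} (h : pos X Y Z) (t1 : arg (Y - X) < arg (Z - X))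
    (t2 : arg (Z - X) < arg (Z - Y)) (t3 : arg (Z - Y) < arg (Y - X) + Real.pi) :
    ‖Z - X‖ ≤ ‖Z - Y‖ ↔ Real.pi ≤ arg (Z - Y) + arg (Z - X) - 2 * arg (Y - X) := by
  have e1 : ‖Y - X‖ * ‖Z - Y‖ * Real.sin (arg (Z - Y) - arg (Y - X)) =
      ‖Y - X‖ * ‖Z - X‖ * Real.sin (arg (Z - X) - arg (Y - X)) := by
    rw [← cx_arg, ← cx_arg, cx1]
  obtain ⟨n1, n2⟩ := norm_pos_of _ _ h
  obtain ⟨_, n3⟩ := norm_pos_of _ _ (pos1 h)
  have e2 : ‖Z - Y‖ * Real.sin (arg (Z - Y) - arg (Y - X)) =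
      ‖Z - X‖ * Real.sin (arg (Z - X) - arg (Y - X)) := by
    have : ‖Y - X‖ * (‖Z - Y‖ * Real.sin (arg (Z - Y) - arg (Y - X))) =
        ‖Y - X‖ * (‖Z - X‖ * Real.sin (arg (Z - X) - arg (Y - X))) := by
      linarith
    exact mul_left_cancel₀ n1.ne' this
  have sp1 : 0 < Real.sin (arg (Z - X) - arg (Y - X)) :=
    Real.sin_pos_of_pos_of_lt_pi (by linarith) (by linarith)
  have key := sin_cmp (u := arg (Z - Y) - arg (Y - X)) (v := arg (Z - X) - arg (Y - X))
    (by linarith) (by linarith) (by linarith)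
  have : ‖Z - X‖ ≤ ‖Z - Y‖ ↔ Real.sin (arg (Z - Y) - arg (Y - X)) ≤
      Real.sin (arg (Z - X) - arg (Y - X)) := by
    constructor
    · intro hle
      by_contra hcon
      have hcon := not_le.1 hcon
      nlinarith [mul_lt_mul_of_pos_left hcon n3, mul_le_mul_of_nonneg_right hle sp1.le]
    · intro hle
      by_contra hcon
      have hcon := not_le.1 hcon
      nlinarith [mul_lt_mul_of_pos_right hcon sp1, mul_le_mul_of_nonneg_left hle n3.le]
  rw [this, key]
  constructor <;> intro hh <;> linarith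

/-- strict version of the monotonicity used for the base triangles -/
theorem base {A F X : ℂ} (hr : 0 < (F - A).re) (hi : (F - A).im = 0) (h : pos A X F) :
    arg (X - A) < arg (F - A) ∧ arg (F - A) < arg (F - X) ∧
      arg (F - X) < arg (X - A) + Real.pi ∧ arg (F - A) = 0 := by
  have h0 : arg (F - A) = 0 := Complex.arg_eq_zero_iff.2 ⟨hr.le, hi⟩
  have h1 := argA hr hi h
  have h2 := argF hr hi h
  have h3 := rng (sin_pos_of _ _ (pos1 h)) (by linarith [Real.pi_pos]) (by linarith)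
  refine ⟨by linarith, by linarith, by linarith, h0⟩

theorem hex0 {A B C D E F : ℂ} (hr : 0 < (F - A).re) (hi : (F - A).im = 0)
    (hABF : pos A B F) (hACF : pos A C F) (hADF : pos A D F) (hAEF : pos A E F)
    (hBCF : pos B C F) (hBDF : pos B D F) (hBEF : pos B E F)
    (hCEF : pos C E F) (hDEF : pos D E F)
    (hABC : pos A B C) (hABD : pos A B D) (hABE : pos A B E)
    (hACE : pos A C E) (hADE : pos A D E) (hBCE : pos B C E) (hBDE : pos B D E)
    (h1 : ‖D - A‖ ≤ ‖F - A‖) (h2 : ‖F - C‖ ≤ ‖F - A‖)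
    (h3 : ‖E - B‖ ≤ ‖D - B‖) (h4 : ‖E - B‖ ≤ ‖E - C‖) : False := by
  have t1 := tri hr hi hABF hAEF hBDF hBEF hABE hADE hBDE
  have t2 := tri hr hi hABF hAEF hBCF hBEF hABE hACE hBCE
  have b1 := base hr hi hADF
  have b2 := base hr hi hACF
  have m1 := (cmpF hr hi hADF hDEF).2
  have m2 := (cmpF hr hi hACF hCEF).2
  have m3 := (cmpA hr hi hADF hABD).1
  have m4 := (cmpA hr hi hACF hABC).1
  have i3 := (side1 hBDE t1.1 t1.2.1 t1.2.2).1 h3
  have i4 := (side2 hBCE t2.1 t2.2.1 t2.2.2).1 h4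
  have i1 : 2 * arg (F - D) - arg (D - A) - arg (F - A) ≤ Real.pi := by
    by_contra hcon
    have hcon := not_le.1 hcon
    have k := side1 hADF b1.1 b1.2.1 b1.2.2.1
    have k1 : ‖F - A‖ ≤ ‖D - A‖ := k.2 hcon.le
    -- equality case: then both are equal, contradiction with strictness
    have k2 : ‖F - A‖ = ‖D - A‖ := le_antisymm k1 h1
    have e1 : ‖D - A‖ * ‖F - D‖ * Real.sin (arg (F - D) - arg (D - A)) =
        ‖F - A‖ * ‖F - D‖ * Real.sin (arg (F - D) - arg (F - A)) := by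
      rw [← cx_arg, ← cx_arg, cx1, cx2]
    obtain ⟨n1, n2⟩ := norm_pos_of _ _ hADF
    obtain ⟨_, n3⟩ := norm_pos_of _ _ (pos1 hADF)
    rw [k2] at e1
    have e2 : Real.sin (arg (F - D) - arg (D - A)) = Real.sin (arg (F - D) - arg (F - A)) :=
      mul_left_cancel₀ (mul_pos n1 n3).ne' e1
    have h5 := Real.sin_sub_sin (arg (F - D) - arg (D - A)) (arg (F - D) - arg (F - A))
    rw [e2, sub_self] at h5
    have h6 : 0 < Real.sin ((arg (F - D) - arg (D - A) - (arg (F - D) - arg (F - A))) / 2) :=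
      Real.sin_pos_of_pos_of_lt_pi (by linarith) (by linarith)
    have h7 : Real.cos ((arg (F - D) - arg (D - A) + (arg (F - D) - arg (F - A))) / 2) < 0 :=
      Real.cos_neg_of_pi_div_two_lt_of_lt (by linarith) (by linarith)
    have h8 := mul_neg_of_pos_of_neg (mul_pos (zero_lt_two (α := ℝ)) h6) h7
    rw [← h5] at h8
    exact lt_irrefl _ h8
  have i2 : arg (F - C) + arg (F - A) - 2 * arg (C - A) ≤ Real.pi := by
    by_contra hcon
    have hcon := not_le.1 hcon
    have k := side2 hACF b2.1 b2.2.1 b2.2.2.1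
    have k1 : ‖F - A‖ ≤ ‖F - C‖ := k.2 hcon.le
    have k2 : ‖F - A‖ = ‖F - C‖ := le_antisymm k1 h2
    have e1 : ‖C - A‖ * ‖F - C‖ * Real.sin (arg (F - C) - arg (C - A)) =
        ‖C - A‖ * ‖F - A‖ * Real.sin (arg (F - A) - arg (C - A)) := by
      rw [← cx_arg, ← cx_arg, cx1]
    obtain ⟨n1, n2⟩ := norm_pos_of _ _ hACF
    obtain ⟨_, n3⟩ := norm_pos_of _ _ (pos1 hACF)
    rw [k2] at e1
    have e2 : Real.sin (arg (F - C) - arg (C - A)) = Real.sin (arg (F - A) - arg (C - A)) :=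
      mul_left_cancel₀ (mul_pos n1 n3).ne' e1
    have h5 := Real.sin_sub_sin (arg (F - C) - arg (C - A)) (arg (F - A) - arg (C - A))
    rw [e2, sub_self] at h5
    have h6 : 0 < Real.sin ((arg (F - C) - arg (C - A) - (arg (F - A) - arg (C - A))) / 2) :=
      Real.sin_pos_of_pos_of_lt_pi (by linarith) (by linarith)
    have h7 : Real.cos ((arg (F - C) - arg (C - A) + (arg (F - A) - arg (C - A))) / 2) < 0 :=
      Real.cos_neg_of_pi_div_two_lt_of_lt (by linarith) (by linarith)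
    have h8 := mul_neg_of_pos_of_neg (mul_pos (zero_lt_two (α := ℝ)) h6) h7
    rw [← h5] at h8
    exact lt_irrefl _ h8
  linarith

theorem pos_scale {A F : ℂ} {X Y Z : ℂ} (hk : F - A ≠ 0) (h : pos X Y Z) :
    pos (X * (starRingEnd ℂ) (F - A)) (Y * (starRingEnd ℂ) (F - A))
      (Z * (starRingEnd ℂ) (F - A)) := by
  have h1 : 0 < (F - A).re ^ 2 + (F - A).im ^ 2 := by
    by_contra hcon
    apply hk
    have e1 : (F - A).re = 0 := by nlinarith [sq_nonneg (F - A).re, sq_nonneg (F - A).im]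
    have e2 : (F - A).im = 0 := by nlinarith [sq_nonneg (F - A).re, sq_nonneg (F - A).im]
    exact Complex.ext e1 e2
  have h2 : cx (Y * (starRingEnd ℂ) (F - A) - X * (starRingEnd ℂ) (F - A))
      (Z * (starRingEnd ℂ) (F - A) - X * (starRingEnd ℂ) (F - A)) =
      ((F - A).re ^ 2 + (F - A).im ^ 2) * cx (Y - X) (Z - X) := by
    unfold cx
    simp only [Complex.sub_re, Complex.sub_im, Complex.mul_re, Complex.mul_im, Complex.conj_re,
      Complex.conj_im]
    ring
  unfold pos at *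
  rw [h2]
  exact mul_pos h1 h

theorem hex {A B C D E F : ℂ}
    (hABF : pos A B F) (hACF : pos A C F) (hADF : pos A D F) (hAEF : pos A E F)
    (hBCF : pos B C F) (hBDF : pos B D F) (hBEF : pos B E F)
    (hCEF : pos C E F) (hDEF : pos D E F)
    (hABC : pos A B C) (hABD : pos A B D) (hABE : pos A B E)
    (hACE : pos A C E) (hADE : pos A D E) (hBCE : pos B C E) (hBDE : pos B D E)
    (h1 : ‖D - A‖ ≤ ‖F - A‖) (h2 : ‖F - C‖ ≤ ‖F - A‖)
    (h3 : ‖E - B‖ ≤ ‖D - B‖) (h4 : ‖E - B‖ ≤ ‖E - C‖) : False := by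
  have hk : F - A ≠ 0 := norm_pos_iff.1 (norm_pos_of _ _ hABF).2
  have hn : ∀ X Y : ℂ, ‖X * (starRingEnd ℂ) (F - A) - Y * (starRingEnd ℂ) (F - A)‖ =
      ‖X - Y‖ * ‖F - A‖ := by
    intro X Y
    rw [← sub_mul, norm_mul, Complex.norm_conj]
  refine hex0 (A := A * (starRingEnd ℂ) (F - A)) (B := B * (starRingEnd ℂ) (F - A))
    (C := C * (starRingEnd ℂ) (F - A)) (D := D * (starRingEnd ℂ) (F - A))
    (E := E * (starRingEnd ℂ) (F - A)) (F := F * (starRingEnd ℂ) (F - A)) ?_ ?_
    (pos_scale hk hABF) (pos_scale hk hACF) (pos_scale hk hADF) (pos_scale hk hAEF)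
    (pos_scale hk hBCF) (pos_scale hk hBDF) (pos_scale hk hBEF)
    (pos_scale hk hCEF) (pos_scale hk hDEF)
    (pos_scale hk hABC) (pos_scale hk hABD) (pos_scale hk hABE)
    (pos_scale hk hACE) (pos_scale hk hADE) (pos_scale hk hBCE) (pos_scale hk hBDE) ?_ ?_ ?_ ?_
  · have h1 : 0 < (F - A).re ^ 2 + (F - A).im ^ 2 := by
      by_contra hcon
      apply hk
      have e1 : (F - A).re = 0 := by nlinarith [sq_nonneg (F - A).re, sq_nonneg (F - A).im]
      have e2 : (F - A).im = 0 := by nlinarith [sq_nonneg (F - A).re, sq_nonneg (F - A).im]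
      exact Complex.ext e1 e2
    rw [← sub_mul]
    rw [Complex.mul_re, Complex.conj_re, Complex.conj_im]
    nlinarith
  · rw [← sub_mul]
    rw [Complex.mul_im, Complex.conj_re, Complex.conj_im]
    ring
  · rw [hn, hn]; exact mul_le_mul_of_nonneg_right h1 (norm_nonneg _)
  · rw [hn, hn]; exact mul_le_mul_of_nonneg_right h2 (norm_nonneg _)
  · rw [hn, hn]; exact mul_le_mul_of_nonneg_right h3 (norm_nonneg _)
  · rw [hn, hn]; exact mul_le_mul_of_nonneg_right h4 (norm_nonneg _)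

/-- to the complex plane -/
noncomputable def tc (x : EuclideanSpace ℝ (Fin 2)) : ℂ := ⟨x 0, x 1⟩

theorem dist_tc (x y : EuclideanSpace ℝ (Fin 2)) : dist x y = ‖tc y - tc x‖ := by
  rw [EuclideanSpace.dist_eq, Complex.norm_eq_sqrt_sq_add_sq]
  simp only [Fin.sum_univ_two, tc, Complex.sub_re, Complex.sub_im, Real.dist_eq, sq_abs]
  congr 1
  ring

/-- cross product of three points -/
def cr (a b c : EuclideanSpace ℝ (Fin 2)) : ℝ :=
  (b 0 - a 0) * (c 1 - a 1) - (b 1 - a 1) * (c 0 - a 0)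

theorem pos_tc {a b c : EuclideanSpace ℝ (Fin 2)} (h : 0 < cr a b c) :
    pos (tc a) (tc b) (tc c) := by
  unfold pos cx tc
  unfold cr at h
  simpa using h

/-- HEX for points in convex position with positively oriented triples; `c = d` is allowed. -/
theorem HEX {ι : Type} [LinearOrder ι] (p : ι → EuclideanSpace ℝ (Fin 2))
    (hp : ∀ i j k : ι, i < j → j < k → 0 < cr (p i) (p j) (p k))
    {a b c d e f : ι} (hab : a < b) (hbc : b < c) (hcd : c ≤ d) (hde : d < e) (hef : e < f)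
    (h1 : dist (p a) (p d) ≤ dist (p a) (p f)) (h2 : dist (p c) (p f) ≤ dist (p a) (p f)) :
    min (dist (p b) (p d)) (dist (p c) (p e)) < dist (p b) (p e) := by
  by_contra hcon
  have hcon := not_lt.1 hcon
  have h3 := hcon.trans (min_le_left _ _)
  have h4 := hcon.trans (min_le_right _ _)
  rw [dist_tc, dist_tc] at h1 h2 h3 h4
  have hbd : b < d := lt_of_lt_of_le hbc hcd
  have hce : c < e := lt_of_le_of_lt hcd hde
  have hac := hab.trans hbc
  have had := hab.trans hbd
  have hae := had.trans hde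
  have hbe := hbd.trans hde
  have hcf := hce.trans hef
  have hdf := hde.trans hef
  exact hex (pos_tc (hp a b f hab (hbe.trans hef))) (pos_tc (hp a c f hac hcf))
    (pos_tc (hp a d f had hdf)) (pos_tc (hp a e f hae hef))
    (pos_tc (hp b c f hbc hcf)) (pos_tc (hp b d f hbd hdf)) (pos_tc (hp b e f hbe hef))
    (pos_tc (hp c e f hce hef)) (pos_tc (hp d e f hde hef))
    (pos_tc (hp a b c hab hbc)) (pos_tc (hp a b d hab hbd)) (pos_tc (hp a b e hab hbe))
    (pos_tc (hp a c e hac hce)) (pos_tc (hp a d e had hde)) (pos_tc (hp b c e hbc hce))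
    (pos_tc (hp b d e hbd hde)) h1 h2 h3 h4

end Pool.Agent.W113.Hex
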